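import Mathlib
import Pool.Agent.N824.WapC

/-!
# Nonexpansive fixed points for semigroups with a left invariant mean on WAP(S)

We show that the separability assumption on the semitopological semigroup `S` can be dropped.
-/

set_option autoImplicit false

namespace Pool.Agent.Results.MP_c68506_an.NonexpansiveWAP

open Set Filter Topology BoundedContinuousFunction

universe u v w

section WAP

variable (𝕜 : Type) [RCLike 𝕜] {S : Type u} [Semigroup S] [TopologicalSpace S]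
  [SeparatelyContinuousMul S]

/-- The left translate `ℓ_a f`, `(ℓ_a f)(t) = f(at)`, of a bounded continuous function on the
semitopological semigroup `S`. -/
def leftTr (a : S) (f : S →ᵇ 𝕜) : S →ᵇ 𝕜 :=
  f.compContinuous ⟨fun t => a * t, SeparatelyContinuousMul.continuous_const_mul⟩

/-- The left orbit `{ℓ_a f : a ∈ S}`, as a subset of `C_b(S)` with its weak topology. -/
def orbit (f : S →ᵇ 𝕜) : Set (WeakSpace 𝕜 (S →ᵇ 𝕜)) :=
  range fun a : S => toWeakSpace 𝕜 (S →ᵇ 𝕜) (leftTr 𝕜 a f)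

theorem compact_closure_of_subset {F : Type*} [NormedAddCommGroup F] [NormedSpace 𝕜 F]
    {s K : Set (WeakSpace 𝕜 F)} (hK : IsCompact K) (h : s ⊆ K) : IsCompact (closure s) := by
  have : R1Space (WeakSpace 𝕜 F) :=
    (Topology.IsInducing.mk rfl :
      IsInducing (fun (x : WeakSpace 𝕜 F) (y : StrongDual 𝕜 F) =>
        (topDualPairing 𝕜 F).flip x y)).r1Space
  exact hK.closure_of_subset h

/-- The function `f` is weakly almost periodic: its left orbit is relatively weakly compact in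
`C_b(S)`. -/
def IsWAP (f : S →ᵇ 𝕜) : Prop := IsCompact (closure (orbit 𝕜 f))

theorem IsWAP.zero : IsWAP 𝕜 (0 : S →ᵇ 𝕜) := by
  refine compact_closure_of_subset 𝕜 (isCompact_singleton (x := (0 : WeakSpace 𝕜 (S →ᵇ 𝕜)))) ?_
  rintro _ ⟨a, rfl⟩
  have : leftTr 𝕜 a (0 : S →ᵇ 𝕜) = 0 := by ext t; rfl
  show toWeakSpace 𝕜 (S →ᵇ 𝕜) (leftTr 𝕜 a 0) ∈ _
  rw [this, map_zero]; rfl

theorem IsWAP.add {f g : S →ᵇ 𝕜} (hf : IsWAP 𝕜 f) (hg : IsWAP 𝕜 g) : IsWAP 𝕜 (f + g) := by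
  refine compact_closure_of_subset 𝕜 (IsCompact.add hf hg) ?_
  rintro _ ⟨a, rfl⟩
  have : leftTr 𝕜 a (f + g) = leftTr 𝕜 a f + leftTr 𝕜 a g := by ext t; rfl
  show toWeakSpace 𝕜 (S →ᵇ 𝕜) (leftTr 𝕜 a (f + g)) ∈ _
  rw [this, map_add]
  exact Set.add_mem_add (subset_closure ⟨a, rfl⟩) (subset_closure ⟨a, rfl⟩)

theorem IsWAP.smul (c : 𝕜) {f : S →ᵇ 𝕜} (hf : IsWAP 𝕜 f) : IsWAP 𝕜 (c • f) := by
  refine compact_closure_of_subset 𝕜 (IsCompact.image hf (continuous_const_smul c)) ?_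
  rintro _ ⟨a, rfl⟩
  have : leftTr 𝕜 a (c • f) = c • leftTr 𝕜 a f := by ext t; rfl
  show toWeakSpace 𝕜 (S →ᵇ 𝕜) (leftTr 𝕜 a (c • f)) ∈ _
  rw [this, map_smul]
  exact ⟨_, subset_closure ⟨a, rfl⟩, rfl⟩

/-- `WAP(S)`: the space of (`𝕜`-valued) bounded continuous functions `f` on `S` whose left orbit is
relatively weakly compact in `C_b(S)`. -/
def WAP (S : Type u) [Semigroup S] [TopologicalSpace S] [SeparatelyContinuousMul S] :
    Submodule 𝕜 (S →ᵇ 𝕜) where
  carrier := {f | IsWAP 𝕜 f}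
  zero_mem' := IsWAP.zero 𝕜
  add_mem' := IsWAP.add 𝕜
  smul_mem' := IsWAP.smul 𝕜

theorem one_mem_WAP : (1 : S →ᵇ 𝕜) ∈ WAP 𝕜 S := by
  refine compact_closure_of_subset 𝕜
    (isCompact_singleton (x := toWeakSpace 𝕜 (S →ᵇ 𝕜) 1)) ?_
  rintro _ ⟨a, rfl⟩
  have : leftTr 𝕜 a (1 : S →ᵇ 𝕜) = 1 := by ext t; rfl
  show toWeakSpace 𝕜 (S →ᵇ 𝕜) (leftTr 𝕜 a 1) ∈ _
  rw [this]; rfl

theorem leftTr_mem_WAP (a : S) {f : S →ᵇ 𝕜} (hf : f ∈ WAP 𝕜 S) : leftTr 𝕜 a f ∈ WAP 𝕜 S := by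
  refine IsCompact.of_isClosed_subset hf isClosed_closure (closure_mono ?_)
  rintro _ ⟨b, rfl⟩
  refine ⟨a * b, ?_⟩
  have : leftTr 𝕜 (a * b) f = leftTr 𝕜 b (leftTr 𝕜 a f) := by
    ext t
    show f (a * b * t) = f (a * (b * t))
    rw [mul_assoc]
  show toWeakSpace 𝕜 (S →ᵇ 𝕜) _ = _
  rw [this]

/-- A left invariant mean on `WAP(S)`: `m(f) ≥ 0` whenever `f ≥ 0`, `m(1) = 1` and
`m(ℓ_a f) = m(f)`. -/
structure IsLIM (m : WAP 𝕜 S →ₗ[𝕜] 𝕜) : Prop where
  nonneg : ∀ f : WAP 𝕜 S, (∀ s, ∃ r : ℝ, 0 ≤ r ∧ (f : S →ᵇ 𝕜) s = (r : 𝕜)) →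
    ∃ r : ℝ, 0 ≤ r ∧ m f = (r : 𝕜)
  one : m ⟨1, one_mem_WAP 𝕜⟩ = 1
  inv : ∀ (a : S) (f : WAP 𝕜 S), m ⟨leftTr 𝕜 a f, leftTr_mem_WAP 𝕜 a f.2⟩ = m f

/-- `WAP(S)` has a left invariant mean. -/
def HasLIM (S : Type u) [Semigroup S] [TopologicalSpace S] [SeparatelyContinuousMul S] : Prop :=
  ∃ m : WAP 𝕜 S →ₗ[𝕜] 𝕜, IsLIM 𝕜 m

end WAP

/-- A representation `T` of `S` on the topological space `X` by continuous maps which is
separately continuous, and quasi-equicontinuous: every map in the closure of `{T_s}` in the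
product space `X^X` is continuous. (It is used for `X = C` with the weak topology.) -/
structure IsRep {S : Type*} [Semigroup S] [TopologicalSpace S] {X : Type*} [TopologicalSpace X]
    (T : S → X → X) : Prop where
  mul : ∀ s t, T (s * t) = T s ∘ T t
  cont : ∀ s, Continuous (T s)
  cont_orbit : ∀ x, Continuous fun s => T s x
  quasi : ∀ g ∈ closure (range T), Continuous g

/-- Convexity of a subset of a real or complex vector space. -/
def IsConvex (𝕂 : Type) [RCLike 𝕂] {W : Type*} [AddCommGroup W] [Module 𝕂 W] (C : Set W) : Prop :=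
  ∀ x ∈ C, ∀ y ∈ C, ∀ a b : ℝ, 0 ≤ a → 0 ≤ b → a + b = 1 → (a : 𝕂) • x + (b : 𝕂) • y ∈ C

/-- The map `T` from `C` to `C` is nonexpansive for the seminorm `q`. Here `C` is a subset of `E`
with its weak topology. -/
def Nonexp {𝕂 : Type} [RCLike 𝕂] {E : Type*} [AddCommGroup E] [Module 𝕂 E] [TopologicalSpace E]
    (q : Seminorm 𝕂 E) {C : Set (WeakSpace 𝕂 E)} (T : C → C) : Prop :=
  ∀ x y : C, q ((toWeakSpace 𝕂 E).symm (T x) - (toWeakSpace 𝕂 E).symm (T y)) ≤
    q ((toWeakSpace 𝕂 E).symm x - (toWeakSpace 𝕂 E).symm y)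

/-- Property (F) of the semigroup `S`: let `E` be any Hausdorff locally convex space over `𝕂`,
with topology defined by the family of seminorms `Q`, let `C` be a nonempty, weakly compact,
convex subset of `E` (written as a subset of `E` with the weak topology), and let `T` be a
representation of `S` on `C` which is weakly separately continuous, weakly quasi-equicontinuous
and `Q`-nonexpansive. Then `T` has a common fixed point. -/
def PropertyF (𝕂 : Type) [RCLike 𝕂] (S : Type u) [Semigroup S] [TopologicalSpace S] : Prop :=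
  ∀ (E : Type v) [AddCommGroup E] [Module 𝕂 E] [TopologicalSpace E] [T2Space E]
    (ι : Type w) (Q : SeminormFamily 𝕂 E ι), WithSeminorms Q →
    ∀ C : Set (WeakSpace 𝕂 E), C.Nonempty → IsCompact C → IsConvex 𝕂 C →
    ∀ T : S → C → C, IsRep T → (∀ (i : ι) (s : S), Nonexp (Q i) (T s)) →
    ∃ x : C, ∀ s, T s x = x

/-- The bounded real-linear map `C(X) → C_b(S)` given by an orbit. -/
noncomputable def pull (𝕜 : Type) [RCLike 𝕜] {S : Type u} [TopologicalSpace S] {X : Type*}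
    [TopologicalSpace X] [CompactSpace X] (o : C(S, X)) : C(X, ℝ) →L[ℝ] (S →ᵇ 𝕜) :=
  LinearMap.mkContinuous
    { toFun := fun ψ => BoundedContinuousFunction.ofNormedAddCommGroup
        (fun s => ((ψ (o s) : ℝ) : 𝕜)) (by fun_prop) ‖ψ‖ (fun s => by
          rw [RCLike.norm_ofReal, ← Real.norm_eq_abs]; exact ψ.norm_coe_le_norm _)
      map_add' := fun f g => by ext s; simp
      map_smul' := fun c f => by
        ext s
        simp [RCLike.real_smul_eq_coe_mul] } 1 (fun ψ => by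
    rw [one_mul]
    refine (BoundedContinuousFunction.norm_le (norm_nonneg _)).2 fun s => ?_
    show ‖((ψ (o s) : ℝ) : 𝕜)‖ ≤ ‖ψ‖
    rw [RCLike.norm_ofReal, ← Real.norm_eq_abs]; exact ψ.norm_coe_le_norm _)

theorem pull_apply (𝕜 : Type) [RCLike 𝕜] {S : Type u} [TopologicalSpace S] {X : Type*}
    [TopologicalSpace X] [CompactSpace X] (o : C(S, X)) (ψ : C(X, ℝ)) (s : S) :
    pull 𝕜 o ψ s = ((ψ (o s) : ℝ) : 𝕜) := rfl

/-- Orbit functions are weakly almost periodic (via Grothendieck's theorem). -/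
theorem pull_mem_WAP (𝕜 : Type) [RCLike 𝕜] {S : Type u} [Semigroup S] [TopologicalSpace S]
    [SeparatelyContinuousMul S] {X : Type*} [TopologicalSpace X] [CompactSpace X] [T2Space X]
    (T : S → X → X) (hT : ∀ s t, T (s * t) = T s ∘ T t) (hTx : ∀ x, Continuous fun s => T s x)
    (hqe : ∀ g ∈ closure (range T), Continuous g) (x : X) (ψ : C(X, ℝ)) :
    pull 𝕜 ⟨fun s => T s x, hTx x⟩ ψ ∈ WAP 𝕜 S := by
  set Sg : Set (X → X) := closure (range T) with hSg
  have hSgc : IsCompact Sg := isClosed_closure.isCompact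
  have : CompactSpace Sg := isCompact_iff_compactSpace.1 hSgc
  let J := pull 𝕜 (S := S) (X := X) ⟨fun s => T s x, hTx x⟩
  let H : Sg → C(X, ℝ) := fun g => ψ.comp ⟨g.1, hqe g.1 g.2⟩
  have hHc : ∀ y, Continuous fun g => H g y := fun y =>
    ψ.continuous.comp ((continuous_apply y).comp continuous_subtype_val)
  have hHn : ∀ g, ‖H g‖ ≤ ‖ψ‖ := by
    intro g
    rw [ContinuousMap.norm_le _ (norm_nonneg _)]
    exact fun y => ψ.norm_coe_le_norm _
  let Θ : Sg → WeakSpace 𝕜 (S →ᵇ 𝕜) := fun g => toWeakSpace 𝕜 (S →ᵇ 𝕜) (J (H g))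
  have hΘ : Continuous Θ := by
    refine WeakBilin.continuous_of_continuous_eval _ fun Λ => ?_
    show Continuous fun g => Λ (J (H g))
    let Λr : C(X, ℝ) →L[ℝ] ℝ := (RCLike.reCLM.comp (Λ.restrictScalars ℝ)).comp J
    let Λi : C(X, ℝ) →L[ℝ] ℝ := (RCLike.imCLM.comp (Λ.restrictScalars ℝ)).comp J
    have h1 : Continuous fun g => Λr (H g) := N824.Wap.grothendieck H hHc ‖ψ‖ hHn Λr
    have h2 : Continuous fun g => Λi (H g) := N824.Wap.grothendieck H hHc ‖ψ‖ hHn Λi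
    have h3 : (fun g => Λ (J (H g))) =
        fun g => ((Λr (H g) : ℝ) : 𝕜) + ((Λi (H g) : ℝ) : 𝕜) * RCLike.I := by
      funext g
      exact (RCLike.re_add_im (Λ (J (H g)))).symm
    rw [h3]
    exact (RCLike.continuous_ofReal.comp h1).add
      ((RCLike.continuous_ofReal.comp h2).mul continuous_const)
  refine compact_closure_of_subset 𝕜 (isCompact_range hΘ) ?_
  rintro _ ⟨a, rfl⟩
  refine ⟨⟨T a, subset_closure ⟨a, rfl⟩⟩, ?_⟩
  show toWeakSpace 𝕜 (S →ᵇ 𝕜) (J (H ⟨T a, _⟩)) = toWeakSpace 𝕜 (S →ᵇ 𝕜) (leftTr 𝕜 a (J ψ))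
  congr 1
  ext t
  show ((ψ (T a (T t x)) : ℝ) : 𝕜) = ((ψ (T (a * t) x) : ℝ) : 𝕜)
  rw [hT]; rfl

/-- **Main theorem.** If `S` is a semitopological semigroup for which `WAP(S)` has a left
invariant mean, then `S` has property (F); no separability of `S` is needed. -/
theorem result (𝕜 𝕂 : Type) [RCLike 𝕜] [RCLike 𝕂] (S : Type u) [Semigroup S]
    [TopologicalSpace S] [T2Space S] [SeparatelyContinuousMul S] (h : HasLIM 𝕜 S) :
    PropertyF.{u, v, w} 𝕂 S := by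
  intro E _ _ _ _ ι Q hQ C hCn hCc hCv T ⟨hT, hTc, hTx, hqe⟩ hne
  obtain ⟨m, hm0, hm1, hmi⟩ := h
  have : CompactSpace C := isCompact_iff_compactSpace.1 hCc
  have : Nonempty C := hCn.to_subtype
  have : IsTopologicalAddGroup E := hQ.topologicalAddGroup
  let _ : Module ℝ E := .restrictScalars ℝ 𝕂 E
  have : IsScalarTower ℝ 𝕂 E := .restrictScalars _ _ _
  let e : C → E := fun x => (toWeakSpace 𝕂 E).symm x
  let Q' : ι → Seminorm ℝ E := fun i => (Q i).restrictScalars ℝ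
  have hQ' : ∀ i v, Q' i v = Q i v := fun i v => rfl
  -- functionals dominated by a seminorm are weakly continuous
  have hcont : ∀ i (f : E →ₗ[ℝ] ℝ), (∀ v, |f v| ≤ Q' i v) → Continuous fun x => f (e x) := by
    intro i f hf
    let F : Module.Dual 𝕂 E := Module.Dual.extendRCLike f
    have hF : ∀ v, ‖F v‖ ≤ Q i v := fun v =>
      Module.Dual.norm_extendRCLike_le_seminorm (𝕜 := 𝕂) (p := Q i) f (fun v => hf v) v
    have hFc : Continuous F := by
      refine hQ.continuous_normedSpace_rng 𝕂 F ⟨{i}, 1, fun v => ?_⟩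
      simpa using hF v
    have h1 : Continuous fun x : WeakSpace 𝕂 E => F ((toWeakSpace 𝕂 E).symm x) :=
      WeakBilin.eval_continuous (topDualPairing 𝕂 E).flip (⟨F, hFc⟩ : StrongDual 𝕂 E)
    have h2 : ∀ x : C, f (e x) = RCLike.re (F ((toWeakSpace 𝕂 E).symm x)) := fun x =>
      (Module.Dual.re_extendRCLike_apply f _).symm
    have h3 : (fun x : C => f (e x)) =
        fun x : C => RCLike.re (F ((toWeakSpace 𝕂 E).symm x)) := funext h2
    rw [h3]
    exact RCLike.continuous_re.comp (h1.comp continuous_subtype_val)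
  have hsep : ∀ x y : C, (∀ i, Q' i (e x - e y) = 0) → x = y := by
    intro x y hxy
    have h1 : e x - e y = 0 := by
      by_contra hne0
      obtain ⟨i, hi⟩ := hQ.separating_of_T1 _ hne0
      exact hi (hxy i)
    apply Subtype.ext
    exact (toWeakSpace 𝕂 E).symm.injective (sub_eq_zero.1 h1)
  have hT2 : T2Space C := by
    refine T2Space.of_injective_continuous
      (f := fun (x : C) (p : Σ i, N824.Wap.Pol (Q' i)) => p.2.1 (e x)) ?_ ?_
    · intro x y hxy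
      refine hsep x y fun i => ?_
      obtain ⟨g, hg⟩ := N824.Wap.exists_pol (Q' i) (e x - e y)
      have h1 : g.1 (e x - e y) = g.1 (e x) - g.1 (e y) := map_sub (N824.Wap.plin g) _ _
      have h2 : g.1 (e x) = g.1 (e y) := congrFun hxy ⟨i, g⟩
      rw [← hg, h1, h2, sub_self]
    · refine continuous_pi fun p => ?_
      exact hcont p.1 (N824.Wap.plin p.2) (N824.Wap.ple p.2)
  have hconv : Convex ℝ (range e) := by
    rintro _ ⟨x, rfl⟩ _ ⟨y, rfl⟩ a b ha hb hab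
    refine ⟨⟨_, hCv x x.2 y y.2 a b ha hb hab⟩, ?_⟩
    show (toWeakSpace 𝕂 E).symm ((a : 𝕂) • (x : WeakSpace 𝕂 E) + (b : 𝕂) • (y : WeakSpace 𝕂 E)) =
      a • e x + b • e y
    rw [map_add, map_smul, map_smul, RCLike.real_smul_eq_coe_smul (K := 𝕂) a (e x),
      RCLike.real_smul_eq_coe_smul (K := 𝕂) b (e y)]
  have hSn : Nonempty S := by
    by_contra hS
    rw [not_nonempty_iff] at hS
    have h1 : (⟨1, one_mem_WAP 𝕜⟩ : WAP 𝕜 S) = 0 := by
      apply Subtype.ext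
      ext s
      exact hS.elim s
    rw [h1, map_zero] at hm1
    exact zero_ne_one hm1
  refine N824.Wap.core (Q := Q') (e := e) hconv hsep hcont T (fun s t => ⟨s * t, (hT s t).symm⟩)
    hTc hqe (fun i s x y => hne i s x y) ?_
  intro x
  -- the invariant mean on `C(C)`
  let J := pull 𝕜 (S := S) (X := C) ⟨fun s => T s x, hTx x⟩
  have hJ : ∀ ψ, J ψ ∈ WAP 𝕜 S := fun ψ => pull_mem_WAP 𝕜 T hT hTx hqe x ψ
  let M0 : C(C, ℝ) →ₗ[ℝ] ℝ :=
    { toFun := fun ψ => RCLike.re (m ⟨J ψ, hJ ψ⟩)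
      map_add' := by
        intro f g
        have h1 : (⟨J (f + g), hJ _⟩ : WAP 𝕜 S) = ⟨J f, hJ f⟩ + ⟨J g, hJ g⟩ :=
          Subtype.ext (map_add J f g)
        rw [h1, map_add, map_add]
      map_smul' := by
        intro c f
        have h1 : (⟨J (c • f), hJ _⟩ : WAP 𝕜 S) = (c : 𝕜) • ⟨J f, hJ f⟩ := by
          apply Subtype.ext
          show J (c • f) = (c : 𝕜) • J f
          rw [map_smul]
          ext s
          simp [RCLike.real_smul_eq_coe_mul]
        rw [h1, map_smul, smul_eq_mul, RCLike.re_ofReal_mul]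
        rfl }
  have hpos : ∀ ψ : C(C, ℝ), (∀ s, 0 ≤ ψ (T s x)) → 0 ≤ M0 ψ := by
    intro ψ hψ
    obtain ⟨r, hr, hr'⟩ := hm0 ⟨J ψ, hJ ψ⟩ (fun s => ⟨ψ (T s x), hψ s, rfl⟩)
    show 0 ≤ RCLike.re (m ⟨J ψ, hJ ψ⟩)
    rw [hr', RCLike.ofReal_re]
    exact hr
  have hone : M0 1 = 1 := by
    have h1 : (⟨J 1, hJ 1⟩ : WAP 𝕜 S) = ⟨1, one_mem_WAP 𝕜⟩ := by
      apply Subtype.ext
      ext s
      show (((1 : C(C, ℝ)) (T s x) : ℝ) : 𝕜) = 1
      simp
    show RCLike.re (m ⟨J 1, hJ 1⟩) = 1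
    rw [h1, hm1, RCLike.one_re]
  have hbound : ∀ ψ : C(C, ℝ), ‖M0 ψ‖ ≤ 1 * ‖ψ‖ := by
    intro ψ
    have h1 : 0 ≤ M0 (‖ψ‖ • (1 : C(C, ℝ)) - ψ) := by
      apply hpos
      intro s
      have h2 := ψ.norm_coe_le_norm (T s x)
      rw [Real.norm_eq_abs] at h2
      have h3 := le_abs_self (ψ (T s x))
      simp only [ContinuousMap.sub_apply, ContinuousMap.smul_apply, ContinuousMap.one_apply,
        smul_eq_mul, mul_one]
      linarith
    have h1' : 0 ≤ M0 (‖ψ‖ • (1 : C(C, ℝ)) + ψ) := by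
      apply hpos
      intro s
      have h2 := ψ.norm_coe_le_norm (T s x)
      rw [Real.norm_eq_abs] at h2
      have h3 := neg_abs_le (ψ (T s x))
      simp only [ContinuousMap.add_apply, ContinuousMap.smul_apply, ContinuousMap.one_apply,
        smul_eq_mul, mul_one]
      linarith
    rw [map_sub, map_smul, hone, smul_eq_mul, mul_one] at h1
    rw [map_add, map_smul, hone, smul_eq_mul, mul_one] at h1'
    rw [one_mul, Real.norm_eq_abs, abs_le]
    constructor <;> linarith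
  refine ⟨M0.mkContinuous 1 hbound, hpos, hone, ?_⟩
  intro a ψ
  show RCLike.re (m ⟨J (ψ.comp ⟨T a, hTc a⟩), hJ _⟩) = RCLike.re (m ⟨J ψ, hJ ψ⟩)
  rw [← hmi a ⟨J ψ, hJ ψ⟩]
  congr 2
  apply Subtype.ext
  ext t
  show ((ψ (T a (T t x)) : ℝ) : 𝕜) = ((ψ (T (a * t) x) : ℝ) : 𝕜)
  rw [hT]; rfl

end Pool.Agent.Results.MP_c68506_an.NonexpansiveWAP
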